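import Pool.Agent.Helper23.XT.Cof2
import Pool.Agent.Helper23.XT.Final

/-!
# Coarsenings of extremal valuations (MP_c5a4e2_lc)

Let `(K, v)` be an extremal valued field and `w` a coarsening of `v`. In the multiplicative
notation of Mathlib (`v x ≤ 1` on the valuation ring, `0` is the value `∞`, a larger value in
additive notation is a smaller one here) we show:

* `(K, w)` is extremal if the value group of `w` is order complete (for example all of `ℝ`);
* `(K, w)` is extremal if no set of values of `w` without least element has the cofinality of the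
  convex subgroup that belongs to `w`;
* in general, if the set of values `w (f (a))`, `a` in the valuation ring of `w`, has no least
  element, then it has no infimum, it is bounded below, the sets of values on the balls of radius
  `ρ > 1` converge to it as `ρ` tends to `1`, but faster than any power of `ρ`, and its cofinality
  is that of the convex subgroup.
-/

namespace Pool.Agent.Results.MP_c5a4e2_lc.CoarseExtremal

open MvPolynomial

universe u v₁ v₂

/-- The valued field `(K, v)` is extremal: for every polynomial `f` in finitely many variables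
over `K`, the value `v (f (a))` is extremal (largest in additive notation, least here) for some
point `a` with coordinates in the valuation ring. -/
def IsExtremal {K : Type u} {Γ : Type v₁} [Field K] [LinearOrderedCommGroupWithZero Γ]
    (v : Valuation K Γ) : Prop :=
  ∀ (n : ℕ) (f : MvPolynomial (Fin n) K), ∃ a : Fin n → K, (∀ i, v (a i) ≤ 1) ∧
    ∀ b : Fin n → K, (∀ i, v (b i) ≤ 1) → v (eval a f) ≤ v (eval b f)

/-- The set of values `w (f (a))` of a polynomial on the ball `w (a i) ≤ ρ`. For `ρ = 1` the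
ball is the valuation ring of `w`. -/
def ValuesOn {K : Type u} {Γ' : Type v₂} [Field K] [LinearOrderedCommGroupWithZero Γ']
    (w : Valuation K Γ') {n : ℕ} (f : MvPolynomial (Fin n) K) (ρ : Γ') : Set Γ' :=
  {γ | ∃ a : Fin n → K, (∀ i, w (a i) ≤ ρ) ∧ w (eval a f) = γ}

/-- The convex subgroup of the value group of `v` that belongs to the coarsening `w`: the values
`v x` of the elements with `w x = 1`. -/
def UnitValues {K : Type u} {Γ : Type v₁} {Γ' : Type v₂} [Field K]
    [LinearOrderedCommGroupWithZero Γ] [LinearOrderedCommGroupWithZero Γ']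
    (v : Valuation K Γ) (w : Valuation K Γ') : Set Γ :=
  {δ | ∃ x : K, w x = 1 ∧ v x = δ}

/-- Let `v` be extremal and `w` a coarsening of `v` (onto its value group with zero `Γ'`). Then:
(A) if every nonempty subset of `Γ'` has an infimum, then `w` is extremal; (B) if no subset of
`Γ'` without least element has the cofinality of the convex subgroup of `w`, then `w` is extremal;
(C) for every polynomial `f`, either the set of values on the valuation ring of `w` has a least
element, or it has no infimum, it is bounded below by a nonzero value, every nonzero strict lower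
bound is a strict lower bound for the values on a larger ball, the values on larger balls beat it
by every power of the radius, and it has the cofinality of the convex subgroup. -/
theorem result {K : Type u} {Γ : Type v₁} {Γ' : Type v₂} [Field K]
    [LinearOrderedCommGroupWithZero Γ] [LinearOrderedCommGroupWithZero Γ']
    (v : Valuation K Γ) (w : Valuation K Γ') (hv : IsExtremal v)
    (hvw : ∀ x, v x ≤ 1 → w x ≤ 1) (hw : Function.Surjective w) :
    ((∀ S : Set Γ', S.Nonempty → ∃ γ, IsGLB S γ) → IsExtremal w) ∧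
    ((∀ S : Set Γ', S.Nonempty → (∀ s ∈ S, ∃ t ∈ S, t < s) →
        Cardinal.lift.{v₁} (Order.cof (S)ᵒᵈ) ≠
          Cardinal.lift.{v₂} (Order.cof (UnitValues v w))) → IsExtremal w) ∧
    ∀ (n : ℕ) (f : MvPolynomial (Fin n) K),
      (∃ γ, IsLeast (ValuesOn w f 1) γ) ∨
      ((¬ ∃ γ, IsGLB (ValuesOn w f 1) γ) ∧
        (∃ γ ≠ 0, ∀ s ∈ ValuesOn w f 1, γ < s) ∧
        (∀ γ ≠ 0, (∀ s ∈ ValuesOn w f 1, γ < s) →
          ∃ ρ, 1 < ρ ∧ ∀ s ∈ ValuesOn w f ρ, γ < s) ∧
        (∀ (k : ℕ) (ρ : Γ'), 1 < ρ → ∃ r, 1 < r ∧ r ≤ ρ ∧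
          ∃ t ∈ ValuesOn w f r, ∀ s ∈ ValuesOn w f 1, t * r ^ k < s) ∧
        Cardinal.lift.{v₁} (Order.cof (ValuesOn w f 1)ᵒᵈ) =
          Cardinal.lift.{v₂} (Order.cof (UnitValues v w))) := by
  have hC : ∀ (n : ℕ) (f : MvPolynomial (Fin n) K),
      (∃ γ, IsLeast (ValuesOn w f 1) γ) ∨
      ((¬ ∃ γ, IsGLB (ValuesOn w f 1) γ) ∧
        (∃ γ ≠ 0, ∀ s ∈ ValuesOn w f 1, γ < s) ∧
        (∀ γ ≠ 0, (∀ s ∈ ValuesOn w f 1, γ < s) →
          ∃ ρ, 1 < ρ ∧ ∀ s ∈ ValuesOn w f ρ, γ < s) ∧
        (∀ (k : ℕ) (ρ : Γ'), 1 < ρ → ∃ r, 1 < r ∧ r ≤ ρ ∧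
          ∃ t ∈ ValuesOn w f r, ∀ s ∈ ValuesOn w f 1, t * r ^ k < s) ∧
        Cardinal.lift.{v₁} (Order.cof (ValuesOn w f 1)ᵒᵈ) =
          Cardinal.lift.{v₂} (Order.cof (UnitValues v w))) := by
    intro n f
    by_cases hmin : ∃ γ, IsLeast (ValuesOn w f 1) γ
    · exact Or.inl hmin
    refine Or.inr ?_
    have hno : ∀ a : Fin n → K, (∀ i, w (a i) ≤ 1) →
        ∃ b : Fin n → K, (∀ i, w (b i) ≤ 1) ∧ w (eval b f) < w (eval a f) := by
      intro a ha
      by_contra hcon
      push Not at hcon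
      refine hmin ⟨w (eval a f), ⟨a, ha, rfl⟩, ?_⟩
      rintro _ ⟨b, hb, rfl⟩
      exact hcon b hb
    obtain ⟨h1, h2, h3⟩ := Helper23.XT.of_no_min hv hvw f hno
    refine ⟨?_, ?_, ?_, ?_, Helper23.XT.cof_values hv hvw f hno⟩
    · rintro ⟨γ, hγ⟩
      exact hmin ⟨γ, Helper23.XT.glb_mem hv hvw hw f hγ, hγ.1⟩
    · obtain ⟨g, hg, hlow⟩ := h1
      refine ⟨w g, (Valuation.ne_zero_iff w).2 hg, ?_⟩
      rintro _ ⟨a, ha, rfl⟩
      exact hlow a ha
    · intro γ hγ hlow
      obtain ⟨g, rfl⟩ := hw γ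
      obtain ⟨r, hr, hr'⟩ := h2 g ((Valuation.ne_zero_iff w).1 hγ)
        (fun a ha => (hlow _ ⟨a, ha, rfl⟩).le)
      refine ⟨w r, hr, ?_⟩
      rintro _ ⟨a, ha, rfl⟩
      exact hr' a ha
    · intro k ρ hρ
      obtain ⟨g, rfl⟩ := hw ρ
      rcases Helper23.XT.cases_of hv hvw with h | ⟨hnt, hdiv, P, hP, hd, hc, hroot⟩
      · obtain ⟨a, ha, hamin⟩ := h n f
        obtain ⟨b, hb, hlt⟩ := hno a ha
        exact absurd (hamin b hb) (not_le.2 hlt)
      · obtain ⟨r, hr, hrρ, a, ha, hab⟩ := Helper21.XT.steep hv hvw hP hd hc hroot f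
          (by
            rintro ⟨a, ha, hamin⟩
            obtain ⟨b, hb, hlt⟩ := hno a ha
            exact absurd (hamin b hb) (not_le.2 hlt)) k hρ
        refine ⟨w r, hr, hrρ, w (eval a f), ⟨a, ha, rfl⟩, ?_⟩
        rintro _ ⟨b, hb, rfl⟩
        obtain ⟨b', hb', hlt⟩ := hno b hb
        exact (hab b' hb').trans_lt hlt
  have hext : (∀ (n : ℕ) (f : MvPolynomial (Fin n) K), ∃ γ, IsLeast (ValuesOn w f 1) γ) →
      IsExtremal w := by
    intro h n f
    obtain ⟨_, ⟨a, ha, rfl⟩, hmin⟩ := h n f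
    exact ⟨a, ha, fun b hb => hmin ⟨b, hb, rfl⟩⟩
  have hne : ∀ (n : ℕ) (f : MvPolynomial (Fin n) K), (ValuesOn w f 1).Nonempty :=
    fun n f => ⟨_, fun _ => 0, fun i => by simp, rfl⟩
  refine ⟨fun hS => hext fun n f => ?_, fun hS => hext fun n f => ?_, hC⟩
  · rcases hC n f with h | ⟨h, -⟩
    · exact h
    · exact absurd (hS _ (hne n f)) h
  · rcases hC n f with h | ⟨-, -, -, -, h⟩
    · exact h
    · by_contra hmin
      refine hS _ (hne n f) (fun s hs => ?_) h
      by_contra hcon
      push Not at hcon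
      exact hmin ⟨s, hs, hcon⟩

end Pool.Agent.Results.MP_c5a4e2_lc.CoarseExtremal
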